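import Pool.Agent.W960.HC.Defs

set_option autoImplicit false

open Set Topology Filter MeasureTheory

namespace Pool.Agent.W592.HC

open Pool.Agent.W960.HC

/-- `Y` at level `0` -/
noncomputable def S (x : ℝ) : ℝ := Real.sqrt (1 + x ^ 2)

lemma S_sq (x : ℝ) : S x ^ 2 = 1 + x ^ 2 := Real.sq_sqrt (by positivity)

lemma S_pos (x : ℝ) : 0 < S x := Real.sqrt_pos.2 (by positivity)

lemma one_le_S (x : ℝ) : 1 ≤ S x := by
  have := S_sq x; have := S_pos x; nlinarith [sq_nonneg x]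

lemma S_le {x : ℝ} (hx : 0 ≤ x) : S x ≤ 1 + x := by
  have := S_sq x; have := S_pos x; nlinarith [sq_nonneg x]

lemma le_S {x : ℝ} (hx : 0 ≤ x) : x ≤ S x := by
  have := S_sq x; have := S_pos x; nlinarith [sq_nonneg x]

lemma S_le_two {x : ℝ} (hx : 1 ≤ x) : S x ≤ (71 / 50) * x := by
  have := S_sq x; have := S_pos x
  by_contra h
  push Not at h
  nlinarith [mul_self_nonneg x]

lemma S_cont : Continuous S := by unfold S; fun_prop

lemma kp_pos (X : ℝ) : 0 < kp X := by unfold kp; positivity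

lemma kp_lt {x X : ℝ} (hx : 0 ≤ x) (h : x < X) : kp X < kp x := by
  unfold kp
  have h1 : X ^ 2 - x ^ 2 + 1 < Real.exp (X ^ 2 - x ^ 2) := by
    apply Real.add_one_lt_exp
    have : 0 < X ^ 2 - x ^ 2 := by nlinarith
    exact this.ne'
  have h2 : Real.exp (-x ^ 2) = Real.exp (-X ^ 2) * Real.exp (X ^ 2 - x ^ 2) := by
    rw [← Real.exp_add]; congr 1; ring
  rw [h2, mul_assoc]
  apply mul_lt_mul_of_pos_left _ (Real.exp_pos _)
  have h3 : 0 ≤ X ^ 2 - x ^ 2 := by nlinarith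
  nlinarith [sq_nonneg x, mul_nonneg (sq_nonneg x) h3]

lemma kp_le {x X : ℝ} (hx : 0 ≤ x) (h : x ≤ X) : kp X ≤ kp x := by
  rcases h.eq_or_lt with rfl | h
  · exact le_rfl
  · exact (kp_lt hx h).le

lemma exp_mul (x : ℝ) : Real.exp (-x ^ 2) * Real.exp (x ^ 2) = 1 := by
  rw [← Real.exp_add]; simp

lemma kp_mul (x : ℝ) : kp x * Real.exp (x ^ 2) = 1 + x ^ 2 := by
  have := exp_mul x
  unfold kp
  linear_combination (1 + x ^ 2) * this

lemma Y_nonneg (κ x : ℝ) : 0 ≤ Y κ x := Real.sqrt_nonneg _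

lemma Y_sq {x X : ℝ} (hx : 0 ≤ x) (h : x ≤ X) :
    Y (kp X) x ^ 2 = 1 + x ^ 2 - kp X * Real.exp (x ^ 2) := by
  unfold Y
  apply Real.sq_sqrt
  have h1 := kp_le hx h
  have h2 := kp_mul x
  have h3 := Real.exp_pos (x ^ 2)
  nlinarith

lemma Y_pos {x X : ℝ} (hx : 0 ≤ x) (h : x < X) : 0 < Y (kp X) x := by
  unfold Y
  apply Real.sqrt_pos.2
  have h1 := kp_lt hx h
  have h2 := kp_mul x
  have h3 := Real.exp_pos (x ^ 2)
  nlinarith

lemma Y_le {x X : ℝ} (hx : 0 ≤ x) (h : x ≤ X) : Y (kp X) x ≤ S x := by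
  have h1 := Y_sq hx h
  have h2 := S_sq x
  have h3 := Y_nonneg (kp X) x
  have h4 := S_pos x
  have h5 : 0 < kp X * Real.exp (x ^ 2) := mul_pos (kp_pos X) (Real.exp_pos _)
  by_contra h6
  push Not at h6
  nlinarith

lemma Y_cont (κ : ℝ) : Continuous (Y κ) := by unfold Y; fun_prop

/-- integrand at level `0` -/
noncomputable def g (a c x : ℝ) : ℝ := Real.exp (-x ^ 2) * S x * (a + c * x ^ 2 + S x ^ 2)

/-- integrand at level `kp X` -/
noncomputable def m (a c X x : ℝ) : ℝ :=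
  Real.exp (-x ^ 2) * Y (kp X) x * (a + c * x ^ 2 + Y (kp X) x ^ 2)

lemma g_cont (a c : ℝ) : Continuous (g a c) := by
  have := S_cont
  unfold g; fun_prop

lemma m_cont (a c X : ℝ) : Continuous (m a c X) := by
  have := Y_cont (kp X)
  unfold m; fun_prop

lemma diff_eq {a c x X : ℝ} (hx : 0 ≤ x) (h : x ≤ X) :
    g a c x - m a c X x = kp X * ((a + c * x ^ 2 + S x ^ 2 + S x * Y (kp X) x + Y (kp X) x ^ 2) /
      (S x + Y (kp X) x)) := by
  have h1 := Y_sq hx h
  have h2 := S_sq x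
  have h3 := Y_nonneg (kp X) x
  have h4 := S_pos x
  have h5 : 0 < S x + Y (kp X) x := by linarith
  have h6 := exp_mul x
  rw [mul_div_assoc', eq_div_iff h5.ne']
  unfold g m
  set s := S x
  set y := Y (kp X) x
  set E := Real.exp (-x ^ 2)
  set F := Real.exp (x ^ 2)
  have h7 : s ^ 2 - y ^ 2 = kp X * F := by rw [h1, h2]; ring
  have h8 : E * (s ^ 2 - y ^ 2) = kp X := by
    rw [h7]; linear_combination kp X * h6
  linear_combination (a + c * x ^ 2 + s ^ 2 + s * y + y ^ 2) * h8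

lemma integrable_of_bound {h : ℝ → ℝ} (hc : Continuous h) {M : ℝ}
    (hb : ∀ x, 1 ≤ x → |h x| ≤ M * (x ^ 3 * Real.exp (-x ^ 2))) (X : ℝ) :
    IntegrableOn h (Ioi X) := by
  apply integrable_of_isBigO_exp_neg (b := 1) one_pos hc.continuousOn
  apply Asymptotics.IsBigO.of_bound |M|
  filter_upwards [eventually_ge_atTop (4 : ℝ)] with x hx
  rw [Real.norm_eq_abs, Real.norm_eq_abs, abs_of_pos (Real.exp_pos _)]
  refine (hb x (by linarith)).trans ?_
  have h1 : x ^ 3 * Real.exp (-x ^ 2) ≤ Real.exp (-1 * x) := by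
    have h2 : x ≤ Real.exp x := by linarith [Real.add_one_le_exp x]
    have h3 : x ^ 3 ≤ Real.exp (3 * x) := by
      have : Real.exp (3 * x) = Real.exp x ^ 3 := by rw [← Real.exp_nat_mul]; norm_num
      rw [this]
      exact pow_le_pow_left₀ (by linarith) h2 3
    have h4 : Real.exp (-x ^ 2) ≤ Real.exp (-4 * x) := Real.exp_le_exp.2 (by nlinarith)
    calc x ^ 3 * Real.exp (-x ^ 2) ≤ Real.exp (3 * x) * Real.exp (-4 * x) :=
          mul_le_mul h3 h4 (Real.exp_pos _).le (Real.exp_pos _).le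
      _ = Real.exp (-1 * x) := by rw [← Real.exp_add]; congr 1; ring
  have h0 : 0 ≤ x ^ 3 * Real.exp (-x ^ 2) := by positivity
  calc M * (x ^ 3 * Real.exp (-x ^ 2)) ≤ |M| * (x ^ 3 * Real.exp (-x ^ 2)) :=
        mul_le_mul_of_nonneg_right (le_abs_self M) h0
    _ ≤ |M| * Real.exp (-1 * x) := mul_le_mul_of_nonneg_left h1 (abs_nonneg _)

lemma g_bound (a c : ℝ) : ∀ x, 1 ≤ x →
    |g a c x| ≤ (2 * (|a| + |c| + 2)) * (x ^ 3 * Real.exp (-x ^ 2)) := by
  intro x hx
  unfold g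
  have h1 := S_pos x
  have h2 := S_le_two hx
  have h3 := Real.exp_pos (-x ^ 2)
  rw [abs_mul, abs_mul, abs_of_pos h3, abs_of_pos h1, S_sq]
  have h4 : |a + c * x ^ 2 + (1 + x ^ 2)| ≤ (|a| + |c| + 2) * x ^ 2 := by
    have h5 : 1 ≤ x ^ 2 := by nlinarith
    have h6 := abs_nonneg a
    have h7 := abs_nonneg c
    rw [abs_le]
    have h8 := neg_abs_le a
    have h9 := le_abs_self a
    have h10 := neg_abs_le c
    have h11 := le_abs_self c
    constructor <;> nlinarith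
  calc Real.exp (-x ^ 2) * S x * |a + c * x ^ 2 + (1 + x ^ 2)|
      ≤ Real.exp (-x ^ 2) * (2 * x) * ((|a| + |c| + 2) * x ^ 2) := by
        apply mul_le_mul _ h4 (abs_nonneg _) (by positivity)
        apply mul_le_mul_of_nonneg_left _ h3.le
        linarith
    _ = (2 * (|a| + |c| + 2)) * (x ^ 3 * Real.exp (-x ^ 2)) := by ring

lemma g_int (a c X : ℝ) : IntegrableOn (g a c) (Ioi X) :=
  integrable_of_bound (g_cont a c) (g_bound a c) X

lemma cube_int (X : ℝ) : IntegrableOn (fun x : ℝ => x ^ 3 * Real.exp (-x ^ 2)) (Ioi X) := by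
  apply integrable_of_bound (M := 1) (by fun_prop)
  intro x hx
  rw [one_mul, abs_of_nonneg]
  positivity

lemma tendsto_kp : Tendsto kp atTop (𝓝 0) := by
  have h1 : Tendsto (fun t : ℝ => t ^ 0 * Real.exp (-t) + t ^ 1 * Real.exp (-t)) atTop (𝓝 (0 + 0)) :=
    (Real.tendsto_pow_mul_exp_neg_atTop_nhds_zero 0).add
      (Real.tendsto_pow_mul_exp_neg_atTop_nhds_zero 1)
  have h2 : Tendsto (fun x : ℝ => x ^ 2) atTop atTop := tendsto_pow_atTop (by norm_num)
  have h3 := h1.comp h2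
  rw [add_zero] at h3
  refine h3.congr fun x => ?_
  simp only [Function.comp, kp]
  ring

lemma cube_eq (X : ℝ) : ∫ x in Ioi X, x ^ 3 * Real.exp (-x ^ 2) = kp X / 2 := by
  have h := integral_Ioi_of_hasDerivAt_of_tendsto' (a := X) (f := fun x => -(kp x) / 2)
    (f' := fun x : ℝ => x ^ 3 * Real.exp (-x ^ 2)) (m := 0) ?_ (cube_int X) ?_
  · rw [h]; ring
  · intro x _
    have h1 : HasDerivAt (fun x : ℝ => -(Real.exp (-x ^ 2) * (1 + x ^ 2)) / 2)
        (-(Real.exp (-x ^ 2) * (-(2 * x)) * (1 + x ^ 2) + Real.exp (-x ^ 2) * (2 * x)) / 2) x := by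
      have e1 : HasDerivAt (fun x : ℝ => -x ^ 2) (-(2 * x)) x := by
        have := (hasDerivAt_pow 2 x).fun_neg
        simpa using this
      have e2 : HasDerivAt (fun x : ℝ => 1 + x ^ 2) (2 * x) x := by
        have := (hasDerivAt_pow 2 x).const_add 1
        simpa using this
      exact ((e1.exp.mul e2).neg).div_const 2
    have h2 : -(Real.exp (-x ^ 2) * (-(2 * x)) * (1 + x ^ 2) + Real.exp (-x ^ 2) * (2 * x)) / 2 =
        x ^ 3 * Real.exp (-x ^ 2) := by ring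
    rw [h2] at h1
    exact h1
  · have := (tendsto_kp.neg).div_const 2
    simpa using this

/-- `f (∞)` -/
noncomputable def Fi (a c : ℝ) : ℝ := ∫ x in Ioi (0 : ℝ), g a c x

lemma Fi_sub {a c X : ℝ} :
    Fi a c - Mel a c X = (∫ x in (0:ℝ)..X, (g a c x - m a c X x)) + ∫ x in Ioi X, g a c x := by
  have h1 := intervalIntegral.integral_interval_add_Ioi (g_int a c 0) (g_int a c X)
  have h2 : ∫ x in (0:ℝ)..X, (g a c x - m a c X x) =
      (∫ x in (0:ℝ)..X, g a c x) - ∫ x in (0:ℝ)..X, m a c X x :=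
    intervalIntegral.integral_sub ((g_cont a c).intervalIntegrable _ _)
      ((m_cont a c X).intervalIntegrable _ _)
  have h3 : Mel a c X = ∫ x in (0:ℝ)..X, m a c X x := rfl
  unfold Fi
  rw [h2, h3, ← h1]
  ring

end Pool.Agent.W592.HC
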