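import Pool.Agent.W592.HC.A1

set_option autoImplicit false

open Set Topology Filter MeasureTheory

namespace Pool.Agent.W592.HC

open Pool.Agent.W960.HC

lemma diff_cont (a c X : ℝ) : Continuous (fun x => g a c x - m a c X x) :=
  (g_cont a c).sub (m_cont a c X)

lemma exp_div_le {x : ℝ} (hx : 0 ≤ x) :
    Real.exp (x ^ 2) / S x ≤ 3 + 3 * (x ^ 3 * Real.exp (x ^ 2) / (1 + x ^ 2) ^ 2) := by
  have h1 := S_pos x
  have h1' := one_le_S x
  have h2 := Real.exp_pos (x ^ 2)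
  have h0 : 0 ≤ x ^ 3 * Real.exp (x ^ 2) / (1 + x ^ 2) ^ 2 := by positivity
  rcases le_total x 1 with h | h
  · have h3 : Real.exp (x ^ 2) ≤ 3 := by
      have h4 : Real.exp (x ^ 2) ≤ Real.exp 1 := Real.exp_le_exp.2 (by nlinarith)
      have h5 := Real.exp_one_lt_d9
      linarith
    have h4 : Real.exp (x ^ 2) / S x ≤ Real.exp (x ^ 2) := div_le_self h2.le h1'
    linarith
  · have h3 : Real.exp (x ^ 2) / S x ≤ 3 * (x ^ 3 * Real.exp (x ^ 2) / (1 + x ^ 2) ^ 2) := by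
      rw [mul_div_assoc', div_le_div_iff₀ h1 (by positivity)]
      have h5 := S_le_two h
      have h6 : S x ^ 3 ≤ 3 * x ^ 3 := by
        have h7 : S x ^ 3 ≤ ((71 / 50) * x) ^ 3 := pow_le_pow_left₀ h1.le h5 3
        have h8 : 0 ≤ x ^ 3 := by positivity
        nlinarith
      have h9 : (1 + x ^ 2) ^ 2 = S x ^ 3 * S x := by rw [← S_sq]; ring
      rw [h9]
      have h10 : 0 ≤ Real.exp (x ^ 2) * S x := by positivity
      nlinarith
    linarith

lemma cont_aux (X : ℝ) (A : ℝ) : ContinuousOn (fun x : ℝ => kp X * (A / 2 * (1 + x)⁻¹ -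
      6 * kp X - 6 * kp X * (x ^ 3 * Real.exp (x ^ 2) / (1 + x ^ 2) ^ 2))) (Ici 0) := by
  have h1 : ContinuousOn (fun x : ℝ => (1 + x)⁻¹) (Ici 0) := by
    apply ContinuousOn.inv₀ (by fun_prop)
    intro x hx
    have : (0:ℝ) ≤ x := hx
    linarith
  have h2 : Continuous (fun x : ℝ => x ^ 3 * Real.exp (x ^ 2) / (1 + x ^ 2) ^ 2) := by
    apply Continuous.div (by fun_prop) (by fun_prop)
    intro x
    positivity
  exact continuousOn_const.mul (((continuousOn_const.mul h1).sub continuousOn_const).sub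
    (continuousOn_const.mul h2.continuousOn))

lemma near1 {a X x : ℝ} (ha : 0 ≤ a + 3) (hx : 0 ≤ x) (h : x ≤ X) :
    kp X * ((a + 3) / 2 * (1 + x)⁻¹ -
      6 * kp X - 6 * kp X * (x ^ 3 * Real.exp (x ^ 2) / (1 + x ^ 2) ^ 2)) ≤
    g a (-3) x - m a (-3) X x := by
  rw [diff_eq hx h]
  apply mul_le_mul_of_nonneg_left _ (kp_pos X).le
  have h1 := Y_sq hx h
  have h2 := S_sq x
  have h3 := Y_nonneg (kp X) x
  have h4 := S_pos x
  have h4' := Y_le hx h
  have h5 : 0 < S x + Y (kp X) x := by linarith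
  have h6 := exp_div_le hx
  have hk := kp_pos X
  set y := Y (kp X) x
  set s := S x
  set F := Real.exp (x ^ 2)
  have hF : 0 < F := Real.exp_pos _
  have h7 : a + 3 - 2 * (kp X * F) ≤ a + -3 * x ^ 2 + s ^ 2 + s * y + y ^ 2 := by
    nlinarith [mul_nonneg h3 (sub_nonneg.2 h4')]
  have h8 : (a + 3) / 2 * (1 + x)⁻¹ ≤ (a + 3) / (s + y) := by
    rw [div_mul_eq_mul_div, mul_comm (a + 3), ← div_eq_inv_mul, div_div,
      div_le_div_iff₀ (by positivity) h5]
    apply mul_le_mul_of_nonneg_left _ ha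
    have := S_le hx
    linarith
  have h9 : 2 * (kp X * F) / (s + y) ≤ 2 * kp X * (F / s) := by
    rw [mul_div_assoc', ← mul_assoc]
    apply div_le_div_of_nonneg_left (by positivity) h4 (by linarith)
  have h10 : 2 * kp X * (F / s) ≤ 2 * kp X * (3 + 3 * (x ^ 3 * F / (1 + x ^ 2) ^ 2)) :=
    mul_le_mul_of_nonneg_left h6 (by positivity)
  calc (a + 3) / 2 * (1 + x)⁻¹ - 6 * kp X - 6 * kp X * (x ^ 3 * F / (1 + x ^ 2) ^ 2)
      ≤ (a + 3) / (s + y) - 2 * (kp X * F) / (s + y) := by linarith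
    _ = (a + 3 - 2 * (kp X * F)) / (s + y) := by ring
    _ ≤ _ := div_le_div_of_nonneg_right h7 h5.le

lemma int_aux {X A : ℝ} (hX : 0 ≤ X) : ∫ x in (0:ℝ)..X, kp X * (A / 2 * (1 + x)⁻¹ -
      6 * kp X - 6 * kp X * (x ^ 3 * Real.exp (x ^ 2) / (1 + x ^ 2) ^ 2)) =
    kp X * (A / 2 * Real.log (1 + X) - 6 * kp X * X -
      3 * kp X * (Real.exp (X ^ 2) / (1 + X ^ 2) - 1)) := by
  have hd : ∀ x ∈ uIcc 0 X, HasDerivAt (fun x : ℝ => kp X * (A / 2 * Real.log (1 + x) -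
      6 * kp X * x - 3 * kp X * (Real.exp (x ^ 2) / (1 + x ^ 2) - 1)))
      (kp X * (A / 2 * (1 + x)⁻¹ -
      6 * kp X - 6 * kp X * (x ^ 3 * Real.exp (x ^ 2) / (1 + x ^ 2) ^ 2))) x := by
    intro x hx
    rw [uIcc_of_le hX] at hx
    have hx0 : 0 ≤ x := hx.1
    have e1 : HasDerivAt (fun x : ℝ => Real.log (1 + x)) ((1 + x)⁻¹) x := by
      have e := ((hasDerivAt_id x).const_add 1).log (by simp; linarith)
      simpa using e
    have e2 : HasDerivAt (fun x : ℝ => Real.exp (x ^ 2)) (Real.exp (x ^ 2) * (2 * x)) x := by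
      have e := (hasDerivAt_pow 2 x).exp
      simpa using e
    have e3 : HasDerivAt (fun x : ℝ => 1 + x ^ 2) (2 * x) x := by
      have := (hasDerivAt_pow 2 x).const_add 1
      simpa using this
    have hne : (1 + x ^ 2) ≠ 0 := by positivity
    have e4 := e2.div e3 hne
    have e5 : HasDerivAt (fun x : ℝ => 6 * kp X * x) (6 * kp X) x := by
      have := (hasDerivAt_id x).const_mul (6 * kp X)
      simpa using this
    have e6 := (((e1.const_mul (A / 2)).sub e5).sub ((e4.sub_const 1).const_mul (3 * kp X))).const_mul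
      (kp X)
    refine e6.congr_deriv ?_
    field_simp
    ring
  rw [intervalIntegral.integral_eq_sub_of_hasDerivAt hd]
  · simp
  · apply ContinuousOn.intervalIntegrable
    apply (cont_aux X A).mono
    rw [uIcc_of_le hX]
    exact fun x hx => hx.1

lemma kp_mul_le {X : ℝ} (hX : 0 ≤ X) : kp X * X ≤ 1 := by
  have h1 : 1 + X ^ 2 + (X ^ 2) ^ 2 / 2 ≤ Real.exp (X ^ 2) :=
    Real.quadratic_le_exp_of_nonneg (by positivity)
  have h2 := exp_mul X
  have h3 := Real.exp_pos (-X ^ 2)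
  unfold kp
  have h4 : (1 + X ^ 2) * X ≤ Real.exp (X ^ 2) := by
    nlinarith [sq_nonneg (X - 1), sq_nonneg X, mul_nonneg (sq_nonneg X) (sq_nonneg (X - 1))]
  calc Real.exp (-X ^ 2) * (1 + X ^ 2) * X = Real.exp (-X ^ 2) * ((1 + X ^ 2) * X) := by ring
    _ ≤ Real.exp (-X ^ 2) * Real.exp (X ^ 2) := mul_le_mul_of_nonneg_left h4 h3.le
    _ = 1 := h2

lemma claim1_aux {a X : ℝ} (ha : 0 ≤ a) (hX : 1 ≤ X) :
    kp X * ((a + 3) / 2 * Real.log (1 + X) - 12) < Fi a (-3) - Mel a (-3) X := by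
  have hX0 : 0 ≤ X := by linarith
  have hk := kp_pos X
  rw [Fi_sub]
  have h1 : kp X * ((a + 3) / 2 * Real.log (1 + X) - 6 * kp X * X -
      3 * kp X * (Real.exp (X ^ 2) / (1 + X ^ 2) - 1)) ≤
      ∫ x in (0:ℝ)..X, (g a (-3) x - m a (-3) X x) := by
    rw [← int_aux hX0]
    apply intervalIntegral.integral_mono_on hX0
    · apply ContinuousOn.intervalIntegrable
      apply (cont_aux X (a + 3)).mono
      rw [uIcc_of_le hX0]
      exact fun x hx => hx.1
    · exact (diff_cont a (-3) X).intervalIntegrable _ _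
    · intro x hx
      exact near1 (by linarith) hx.1 hx.2
  have h2 : -(2 * kp X) ≤ ∫ x in Ioi X, g a (-3) x := by
    have e : ∫ x in Ioi X, -4 * (x ^ 3 * Real.exp (-x ^ 2)) = -(2 * kp X) := by
      rw [integral_const_mul, cube_eq]; ring
    rw [← e]
    apply setIntegral_mono_on ((cube_int X).const_mul (-4)) (g_int a (-3) X) measurableSet_Ioi
    intro x hx
    have hx1 : 1 ≤ x := hX.trans (le_of_lt hx)
    have h3 := S_pos x
    have h4 := S_le_two hx1
    have h5 := Real.exp_pos (-x ^ 2)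
    unfold g
    rw [S_sq]
    have h6 : -4 * x ^ 3 ≤ S x * (a + -3 * x ^ 2 + (1 + x ^ 2)) := by
      have h7 : -(2 * x ^ 2) ≤ a + -3 * x ^ 2 + (1 + x ^ 2) := by nlinarith
      have h8 : S x * -(2 * x ^ 2) ≤ S x * (a + -3 * x ^ 2 + (1 + x ^ 2)) :=
        mul_le_mul_of_nonneg_left h7 h3.le
      have h9 : 0 ≤ x ^ 2 := sq_nonneg x
      nlinarith [mul_nonneg h9 (by linarith : (0:ℝ) ≤ 2 * x - S x)]
    calc -4 * (x ^ 3 * Real.exp (-x ^ 2)) = Real.exp (-x ^ 2) * (-4 * x ^ 3) := by ring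
      _ ≤ Real.exp (-x ^ 2) * (S x * (a + -3 * x ^ 2 + (1 + x ^ 2))) :=
        mul_le_mul_of_nonneg_left h6 h5.le
      _ = _ := by ring
  have h3 := kp_mul_le hX0
  have h4 : kp X * (Real.exp (X ^ 2) / (1 + X ^ 2)) = 1 := by
    rw [mul_div_assoc', kp_mul, div_self]
    positivity
  have h5 : kp X * ((a + 3) / 2 * Real.log (1 + X) - 9) ≤
      kp X * ((a + 3) / 2 * Real.log (1 + X) - 6 * kp X * X -
      3 * kp X * (Real.exp (X ^ 2) / (1 + X ^ 2) - 1)) := by
    apply mul_le_mul_of_nonneg_left _ hk.le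
    nlinarith
  nlinarith

/-- for `c = -3`, `f (X) < f (∞)` for large `X` -/
lemma claim1 {a : ℝ} (ha : 0 ≤ a) : ∃ X₀, 1 ≤ X₀ ∧ ∀ X, X₀ ≤ X → Mel a (-3) X < Fi a (-3) := by
  refine ⟨Real.exp 8, ?_, fun X hX => ?_⟩
  · exact Real.one_le_exp (by norm_num)
  · have h1 : 1 ≤ X := (Real.one_le_exp (by norm_num : (0:ℝ) ≤ 8)).trans hX
    have h2 := claim1_aux ha h1
    have h3 : 8 ≤ Real.log (1 + X) := by
      rw [Real.le_log_iff_exp_le (by linarith)]
      linarith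
    have h4 := kp_pos X
    have h5 : 0 ≤ kp X * ((a + 3) / 2 * Real.log (1 + X) - 12) := by
      apply mul_nonneg h4.le
      nlinarith
    linarith

end Pool.Agent.W592.HC
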