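import Pool.Agent.W592.HC.A2

set_option autoImplicit false

open Set Topology Filter MeasureTheory

namespace Pool.Agent.W592.HC

open Pool.Agent.W960.HC

lemma near2 {a d X x : ℝ} (ha : 0 ≤ a + 3) (hd : 0 ≤ d) (hx : 0 ≤ x) (h : x ≤ X) :
    g a (-3 - d) x - m a (-3 - d) X x ≤ kp X * ((a + 3) - d / 2 * (x - 1)) := by
  rw [diff_eq hx h]
  apply mul_le_mul_of_nonneg_left _ (kp_pos X).le
  have h2 := S_sq x
  have h3 := Y_nonneg (kp X) x
  have h4 := S_pos x
  have h4' := Y_le hx h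
  have h1s := one_le_S x
  have h5 : 0 < S x + Y (kp X) x := by linarith
  set y := Y (kp X) x
  set s := S x
  have h7 : a + (-3 - d) * x ^ 2 + s ^ 2 + s * y + y ^ 2 ≤ a + 3 - d * x ^ 2 := by
    nlinarith [mul_nonneg h4.le (sub_nonneg.2 h4'), mul_nonneg h3 (sub_nonneg.2 h4')]
  have h8 : (a + 3) / (s + y) ≤ a + 3 := div_le_self ha (by linarith)
  have h9 : d / 2 * (x - 1) ≤ d * x ^ 2 / (s + y) := by
    rw [le_div_iff₀ h5]
    rcases le_total x 1 with h10 | h10
    · have : d / 2 * (x - 1) * (s + y) ≤ 0 := by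
        apply mul_nonpos_of_nonpos_of_nonneg _ h5.le
        apply mul_nonpos_of_nonneg_of_nonpos (by linarith) (by linarith)
      have h11 : 0 ≤ d * x ^ 2 := by positivity
      linarith
    · have h11 : s + y ≤ 2 * (1 + x) := by
        have := S_le hx
        linarith
      have h12 : 0 ≤ d / 2 * (x - 1) := mul_nonneg (by linarith) (by linarith)
      calc d / 2 * (x - 1) * (s + y) ≤ d / 2 * (x - 1) * (2 * (1 + x)) :=
            mul_le_mul_of_nonneg_left h11 h12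
        _ = d * (x ^ 2 - 1) := by ring
        _ ≤ d * x ^ 2 := mul_le_mul_of_nonneg_left (by linarith) hd
  calc (a + (-3 - d) * x ^ 2 + s ^ 2 + s * y + y ^ 2) / (s + y)
      ≤ (a + 3 - d * x ^ 2) / (s + y) := div_le_div_of_nonneg_right h7 h5.le
    _ = (a + 3) / (s + y) - d * x ^ 2 / (s + y) := by ring
    _ ≤ _ := by linarith

lemma int2 (A d X : ℝ) : ∫ x in (0:ℝ)..X, kp X * (A - d / 2 * (x - 1)) =
    kp X * (A * X - d / 2 * (X ^ 2 / 2 - X)) := by
  have hd : ∀ x ∈ uIcc 0 X, HasDerivAt (fun x : ℝ => kp X * (A * x - d / 2 * (x ^ 2 / 2 - x)))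
      (kp X * (A - d / 2 * (x - 1))) x := by
    intro x _
    have e1 : HasDerivAt (fun x : ℝ => A * x) A x := by
      simpa using (hasDerivAt_id x).const_mul A
    have e2 : HasDerivAt (fun x : ℝ => x ^ 2 / 2 - x) (x - 1) x := by
      have := ((hasDerivAt_pow 2 x).div_const 2).sub (hasDerivAt_id x)
      refine this.congr_deriv ?_
      simp
    exact (e1.sub (e2.const_mul (d / 2))).const_mul (kp X)
  rw [intervalIntegral.integral_eq_sub_of_hasDerivAt hd]
  · simp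
  · apply Continuous.intervalIntegrable
    fun_prop

/-- for `c < -3`, `f (X) > f (∞)` for large `X` -/
lemma claim2 {a d : ℝ} (ha : 0 ≤ a) (hd : 0 < d) :
    ∃ X₀, 1 ≤ X₀ ∧ ∀ X, X₀ ≤ X → Fi a (-3 - d) < Mel a (-3 - d) X := by
  refine ⟨a + 1 + (4 * (a + 3) + 2 * d + 1) / d, ?_, fun X hX => ?_⟩
  · have : 0 ≤ (4 * (a + 3) + 2 * d + 1) / d := by positivity
    linarith
  have hp : 0 ≤ (4 * (a + 3) + 2 * d + 1) / d := by positivity
  have hX1 : 1 ≤ X := by linarith
  have hXa : a + 1 ≤ X := by linarith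
  have hX0 : 0 ≤ X := by linarith
  have hk := kp_pos X
  have hXd : 4 * (a + 3) + 2 * d + 1 ≤ d * X := by
    have h1 : (4 * (a + 3) + 2 * d + 1) / d ≤ X := by linarith
    rw [div_le_iff₀ hd] at h1
    linarith
  have e := Fi_sub (a := a) (c := -3 - d) (X := X)
  have h1 : ∫ x in (0:ℝ)..X, (g a (-3 - d) x - m a (-3 - d) X x) ≤
      kp X * ((a + 3) * X - d / 2 * (X ^ 2 / 2 - X)) := by
    rw [← int2]
    apply intervalIntegral.integral_mono_on hX0
    · exact (diff_cont a (-3 - d) X).intervalIntegrable _ _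
    · apply Continuous.intervalIntegrable
      fun_prop
    · intro x hx
      exact near2 (by linarith) hd.le hx.1 hx.2
  have h2 : ∫ x in Ioi X, g a (-3 - d) x ≤ 0 := by
    apply setIntegral_nonpos measurableSet_Ioi
    intro x hx
    have hx1 : X < x := hx
    unfold g
    rw [S_sq]
    have h3 := S_pos x
    have h5 := Real.exp_pos (-x ^ 2)
    apply mul_nonpos_of_nonneg_of_nonpos (by positivity)
    nlinarith [mul_nonneg hd.le (sq_nonneg x)]
  have h3 : kp X * ((a + 3) * X - d / 2 * (X ^ 2 / 2 - X)) < 0 := by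
    apply mul_neg_of_pos_of_neg hk
    nlinarith
  linarith

lemma near3 {a c X x : ℝ} (hx : 0 ≤ x) (h : x ≤ X) :
    -(kp X * (|a| + 3 + (|c| + 3) * X ^ 2)) ≤ g a c x - m a c X x := by
  rw [diff_eq hx h, ← mul_neg]
  apply mul_le_mul_of_nonneg_left _ (kp_pos X).le
  have h3 := Y_nonneg (kp X) x
  have h4 := S_pos x
  have h1s := one_le_S x
  have h5 : 0 < S x + Y (kp X) x := by linarith
  set y := Y (kp X) x
  set s := S x
  rw [le_div_iff₀ h5]
  have h6 : 0 ≤ |a| + 3 + (|c| + 3) * X ^ 2 := by positivity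
  have h7 : x ^ 2 ≤ X ^ 2 := by nlinarith
  have h8 := neg_abs_le a
  have h10 := neg_abs_le c
  have h11 : -(|c| * X ^ 2) ≤ c * x ^ 2 := by
    nlinarith [abs_nonneg c, sq_nonneg x, mul_nonneg (abs_nonneg c) (sub_nonneg.2 h7)]
  have h12 : (|a| + 3 + (|c| + 3) * X ^ 2) ≤ (|a| + 3 + (|c| + 3) * X ^ 2) * (s + y) := by
    nlinarith
  nlinarith [mul_nonneg h4.le h3, sq_nonneg s, sq_nonneg y, sq_nonneg X]

lemma kp_cube_le {X : ℝ} (hX : 1 ≤ X) : kp X * X ^ 3 ≤ 54 / X := by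
  have h1 : (X ^ 2 / 3) ^ 3 ≤ Real.exp (X ^ 2) := by
    have h2 : X ^ 2 / 3 ≤ Real.exp (X ^ 2 / 3) := by
      linarith [Real.add_one_le_exp (X ^ 2 / 3)]
    have h3 : Real.exp (X ^ 2) = Real.exp (X ^ 2 / 3) ^ 3 := by
      rw [← Real.exp_nat_mul]; congr 1; push_cast; ring
    rw [h3]
    exact pow_le_pow_left₀ (by positivity) h2 3
  have h2 := exp_mul X
  have h3 := Real.exp_pos (-X ^ 2)
  rw [le_div_iff₀ (by linarith)]
  unfold kp
  have h4 : (1 + X ^ 2) * X ^ 4 ≤ 54 * Real.exp (X ^ 2) := by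
    have h5 : 1 ≤ X ^ 2 := by nlinarith
    have h6 : 0 ≤ X ^ 4 := by positivity
    have h7 : (1 + X ^ 2) * X ^ 4 ≤ 2 * X ^ 6 := by nlinarith
    have h8 : (X ^ 2 / 3) ^ 3 = X ^ 6 / 27 := by ring
    rw [h8] at h1
    linarith
  calc Real.exp (-X ^ 2) * (1 + X ^ 2) * X ^ 3 * X = Real.exp (-X ^ 2) * ((1 + X ^ 2) * X ^ 4) := by
        ring
    _ ≤ Real.exp (-X ^ 2) * (54 * Real.exp (X ^ 2)) := mul_le_mul_of_nonneg_left h4 h3.le
    _ = 54 := by linear_combination 54 * h2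

/-- convergence, one-sided -/
lemma claim3 {a c : ℝ} (h : Fi a c < 0) : ∃ X₀, 1 ≤ X₀ ∧ ∀ X, X₀ ≤ X → Mel a c X < 0 := by
  set M : ℝ := 2 * |a| + 2 * |c| + 8 with hM
  have hM0 : 0 < M := by positivity
  refine ⟨1 + 54 * M / (-Fi a c), ?_, fun X hX => ?_⟩
  · have : 0 ≤ 54 * M / (-Fi a c) := div_nonneg (by positivity) (by linarith)
    linarith
  have hp : 0 ≤ 54 * M / (-Fi a c) := div_nonneg (by positivity) (by linarith)
  have hX1 : 1 ≤ X := by linarith
  have hX0 : 0 ≤ X := by linarith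
  have hk := kp_pos X
  have e := Fi_sub (a := a) (c := c) (X := X)
  have h1 : -(kp X * (|a| + 3 + (|c| + 3) * X ^ 2)) * X ≤
      ∫ x in (0:ℝ)..X, (g a c x - m a c X x) := by
    have e1 : ∫ _x in (0:ℝ)..X, -(kp X * (|a| + 3 + (|c| + 3) * X ^ 2)) =
        -(kp X * (|a| + 3 + (|c| + 3) * X ^ 2)) * X := by
      rw [intervalIntegral.integral_const, sub_zero, smul_eq_mul, mul_comm]
    rw [← e1]
    apply intervalIntegral.integral_mono_on hX0
    · exact intervalIntegrable_const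
    · exact (diff_cont a c X).intervalIntegrable _ _
    · intro x hx
      exact near3 hx.1 hx.2
  have h2 : -((|a| + |c| + 2) * kp X) ≤ ∫ x in Ioi X, g a c x := by
    have e2 : ∫ x in Ioi X, -(2 * (|a| + |c| + 2)) * (x ^ 3 * Real.exp (-x ^ 2)) =
        -((|a| + |c| + 2) * kp X) := by
      rw [integral_const_mul, cube_eq]; ring
    rw [← e2]
    apply setIntegral_mono_on ((cube_int X).const_mul _) (g_int a c X) measurableSet_Ioi
    intro x hx
    have hx1 : 1 ≤ x := hX1.trans (le_of_lt hx)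
    have h3 := g_bound a c x hx1
    have h4 := neg_abs_le (g a c x)
    linarith
  have h3 := kp_cube_le hX1
  have h4 : kp X * (|a| + 3 + (|c| + 3) * X ^ 2) * X + (|a| + |c| + 2) * kp X ≤
      M * (kp X * X ^ 3) := by
    have ha := abs_nonneg a
    have hc := abs_nonneg c
    have h5 : 1 ≤ X ^ 2 := by nlinarith
    have h6 : X ≤ X ^ 3 := by nlinarith
    have h7 : 1 ≤ X ^ 3 := by linarith
    have h8 : (|a| + 3 + (|c| + 3) * X ^ 2) * X + (|a| + |c| + 2) ≤ M * X ^ 3 := by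
      rw [hM]
      nlinarith [mul_nonneg ha (sub_nonneg.2 h6), mul_nonneg ha (sub_nonneg.2 h7),
        mul_nonneg hc (sub_nonneg.2 h7)]
    calc kp X * (|a| + 3 + (|c| + 3) * X ^ 2) * X + (|a| + |c| + 2) * kp X
        = kp X * ((|a| + 3 + (|c| + 3) * X ^ 2) * X + (|a| + |c| + 2)) := by ring
      _ ≤ kp X * (M * X ^ 3) := mul_le_mul_of_nonneg_left h8 hk.le
      _ = _ := by ring
  have h5 : M * (kp X * X ^ 3) ≤ M * (54 / X) := mul_le_mul_of_nonneg_left h3 hM0.le
  have h6 : M * (54 / X) < -Fi a c := by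
    rw [mul_div_assoc', div_lt_iff₀ (by linarith)]
    have h7 : 54 * M / (-Fi a c) < X := by linarith
    rw [div_lt_iff₀ (by linarith)] at h7
    linarith
  nlinarith

end Pool.Agent.W592.HC
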